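import Mathlib
import Pool.Agent.Helper350.FinalTree

set_option autoImplicit false

namespace Pool.Agent.Results.MP_77f213_al.Q2NotAttained

/-- A metric space in which any two points are joined by a geodesic segment. -/
def IsGeodesic (X : Type) [MetricSpace X] : Prop :=
  ∀ x y : X, ∃ γ : ℝ → X, γ 0 = x ∧ γ (dist x y) = y ∧
    ∀ s ∈ Set.Icc (0:ℝ) (dist x y), ∀ t ∈ Set.Icc (0:ℝ) (dist x y), dist (γ s) (γ t) = |s - t|

/-- Gromov hyperbolicity, by the four point condition. -/
def IsHyperbolic (X : Type) [MetricSpace X] : Prop :=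
  ∃ δ : ℝ, ∀ x y z w : X,
    min ((dist x w + dist y w - dist x y) / 2) ((dist y w + dist z w - dist y z) / 2) - δ
      ≤ (dist x w + dist z w - dist x z) / 2

/-- A geometric action on a proper geodesic metric space: by isometries, properly discontinuous
and cocompact. -/
structure IsGeometric (G X : Type) [Group G] [MetricSpace X] [MulAction G X] : Prop where
  nonempty : Nonempty X
  proper : ProperSpace X
  geodesic : IsGeodesic X
  isometric : ∀ (g : G) (x y : X), dist (g • x) (g • y) = dist x y
  discontinuous : ∀ K L : Set X, IsCompact K → IsCompact L →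
    Set.Finite {g : G | (((g • ·) '' K) ∩ L).Nonempty}
  cocompact : ∃ K : Set X, IsCompact K ∧ ∀ x : X, ∃ g : G, g • x ∈ K

/-- `f` is a `(lam, C)`-quasi-isometry. -/
def IsQI {X Y : Type} [MetricSpace X] [MetricSpace Y] (lam C : ℝ) (f : X → Y) : Prop :=
  (∀ x y : X, 1 / lam * dist x y - C ≤ dist (f x) (f y) ∧
    dist (f x) (f y) ≤ lam * dist x y + C) ∧
  ∀ z : Y, ∃ x : X, dist (f x) z ≤ C

/-- The infimum of the multiplicative constants of quasi-isometries from `X` to `Y`. -/
noncomputable def lamStar (X Y : Type) [MetricSpace X] [MetricSpace Y] : ℝ :=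
  sInf {lam : ℝ | 1 ≤ lam ∧ ∃ C : ℝ, 0 ≤ C ∧ ∃ f : X → Y, IsQI lam C f}

open Pool.Agent.Helper350.Tree

theorem W_fg : Group.FG W := by
  rw [Group.fg_iff]
  refine ⟨Set.range W.gen, ?_, Set.finite_range _⟩
  rw [eq_top_iff]
  rintro ⟨l, hl⟩ -
  induction l with
  | nil => exact Subgroup.one_mem _
  | cons a l ih =>
    have e : (⟨a :: l, hl⟩ : W) = W.gen a * ⟨l, hl.tail⟩ := W.ext' (by
      rw [W.lst_mul, W.lst_gen]
      show a :: l = rmul [a] l
      rw [rmul_eq_append (u := [a]) hl]; rfl)
    rw [e]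
    exact Subgroup.mul_mem _ (Subgroup.subset_closure ⟨a, rfl⟩) (ih hl.tail)

theorem geometric (P : Par) : IsGeometric W (Sp P) where
  nonempty := inferInstance
  proper := inferInstance
  geodesic := Sp.geodesic
  isometric g x y := dist_smul g x y
  discontinuous _ _ hK hL := ProperlyDiscontinuousSMul.finite_disjoint_inter_image hK hL
  cocompact := Sp.cocompact

theorem qi_close' (η : ℝ) (hη : 0 < η) :
    ∃ C : ℝ, 0 ≤ C ∧ ∃ f : Sp P0 → Sp P1, IsQI (1 + η) C f := by
  obtain ⟨f, c, h1, h2⟩ := qi_close η hη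
  refine ⟨max c 0, le_max_right _ _, f, fun x y => ?_, fun z => ?_⟩
  · have := h1 x y
    have := le_max_left c 0
    have e : 1 / (1 + η) * dist x y = dist x y / (1 + η) := by ring
    rw [e]
    constructor <;> linarith
  · obtain ⟨x, hx⟩ := h2 z
    exact ⟨x, hx.trans (le_max_left _ _)⟩

/-- There are a finitely generated group with geometric actions on two proper geodesic hyperbolic
spaces for which the infimum of the multiplicative constants is one but there is no
`(1, C)`-quasi-isometry. -/
theorem result : ∃ (G X₀ X₁ : Type) (_ : Group G) (_ : MetricSpace X₀) (_ : MetricSpace X₁)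
    (_ : MulAction G X₀) (_ : MulAction G X₁),
    Group.FG G ∧ IsGeometric G X₀ ∧ IsGeometric G X₁ ∧ IsHyperbolic X₀ ∧ IsHyperbolic X₁ ∧
    lamStar X₀ X₁ = 1 ∧ ¬ ∃ (C : ℝ) (f : X₀ → X₁), IsQI 1 C f := by
  refine ⟨W, Sp P0, Sp P1, inferInstance, inferInstance, inferInstance, inferInstance,
    inferInstance, W_fg, geometric P0, geometric P1, Sp.hyperbolic, Sp.hyperbolic, ?_, ?_⟩
  · apply le_antisymm
    · apply le_of_forall_pos_le_add
      intro η hη
      exact csInf_le ⟨1, fun lam h => h.1⟩ ⟨by linarith, qi_close' η hη⟩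
    · apply le_csInf
      · exact ⟨1 + 1, by norm_num, qi_close' 1 one_pos⟩
      · intro lam h
        exact h.1
  · rintro ⟨C, f, h1, _⟩
    refine no_rough_space f C (fun x y => ?_)
    have h := h1 x y
    rw [div_one, one_mul] at h
    exact h

end Pool.Agent.Results.MP_77f213_al.Q2NotAttained
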